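import Pool.Agent.Helper79.PcpOwn

/-!
MP_6f9417_lc: the Post Correspondence Problem for elementary homomorphisms is undecidable, already for lists of one fixed length
over one fixed finite alphabet.
-/

set_option autoImplicit false

namespace Pool.Agent.Results.MP_6f9417_lc.ElementaryUndecidable

open Pool.Agent.Helper79.PcpOwn

/-- There are a length `n ≥ 1` and a finite alphabet with `s ≥ 1` letters such that no partial recursive function `F` has, for
all pairs `u`, `v` of lists of `n` words over this alphabet whose homomorphisms `g = hom u` and `h = hom v` are nonerasing and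
elementary, a value `F (u, v)` which says whether the equality set of `g` and `h` is different from `{ε}`. -/
theorem result : ∃ n s : ℕ, 1 ≤ n ∧ 1 ≤ s ∧
    ¬ ∃ F : (Fin n → List (Fin s)) × (Fin n → List (Fin s)) →. Bool, Partrec F ∧
      ∀ u v : Fin n → List (Fin s), Nonerasing (hom u) → Nonerasing (hom v) →
        Elementary (hom u) → Elementary (hom v) →
        ∃ b ∈ F (u, v), (b = true ↔ EqSet (hom u) (hom v) ≠ {1}) :=
  Pool.Agent.Helper79.PcpOwn.main

end Pool.Agent.Results.MP_6f9417_lc.ElementaryUndecidable
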